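import Pool.Agent.Q109.Rat.Ops

/-!
The core dimension of a representation of the Klein four group over `ZMod 2`.
-/

open CategoryTheory CategoryTheory.MonoidalCategory CategoryTheory.Limits

namespace Pool.Agent.Q109.Rat

open Representation

section c
variable {V : Type*} [AddCommGroup V] [Module K V] (ρ : Representation K G V)
variable {W : Type*} [AddCommGroup W] [Module K W] (σ : Representation K G W)

/-- dimension minus four times the rank of the norm -/
noncomputable def c : ℤ := Module.finrank K V - 4 * Module.finrank K (LinearMap.range ρ.norm)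

variable {ρ σ} in
lemma norm_comm (f : ρ.IntertwiningMap σ) (v : V) : f (ρ.norm v) = σ.norm (f v) := by
  rw [norm_apply, norm_apply, hom_X, hom_Y]

variable {ρ σ} in
lemma c_equiv (e : ρ.Equiv σ) : c ρ = c σ := by
  unfold c
  rw [LinearEquiv.finrank_eq e.toLinearEquiv]
  congr 2
  have h : Submodule.map (e.toLinearEquiv : V →ₗ[K] W) (LinearMap.range ρ.norm) =
      LinearMap.range σ.norm := by
    ext w
    simp only [Submodule.mem_map, LinearMap.mem_range]
    constructor
    · rintro ⟨_, ⟨v, rfl⟩, rfl⟩
      exact ⟨e v, (norm_comm e.toIntertwiningMap v).symm⟩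
    · rintro ⟨w, rfl⟩
      refine ⟨_, ⟨e.symm w, rfl⟩, ?_⟩
      refine (norm_comm e.toIntertwiningMap _).trans ?_
      congr 1
      exact e.apply_symm_apply w
  rw [← h]
  exact_mod_cast (LinearEquiv.finrank_map_eq e.toLinearEquiv _).symm

lemma X_prod (v : V × W) : X (ρ.prod σ) v = (X ρ v.1, X σ v.2) := rfl
lemma Y_prod (v : V × W) : Y (ρ.prod σ) v = (Y ρ v.1, Y σ v.2) := rfl

/-- the product of two submodules, as a space -/
def prodSubEquiv (p : Submodule K V) (q : Submodule K W) : ↥(p.prod q) ≃ₗ[K] ↥p × ↥q where
  toFun x := (⟨x.1.1, x.2.1⟩, ⟨x.1.2, x.2.2⟩)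
  invFun x := ⟨(x.1.1, x.2.1), ⟨x.1.2, x.2.2⟩⟩
  map_add' _ _ := rfl
  map_smul' _ _ := rfl
  left_inv _ := rfl
  right_inv _ := rfl

lemma c_prod [FiniteDimensional K V] [FiniteDimensional K W] :
    c (ρ.prod σ) = c ρ + c σ := by
  unfold c
  have h : LinearMap.range (ρ.prod σ).norm =
      (LinearMap.range ρ.norm).prod (LinearMap.range σ.norm) := by
    have : (ρ.prod σ).norm = LinearMap.prodMap ρ.norm σ.norm := by
      ext v <;> simp [norm_apply, X_prod, Y_prod]
    rw [this, LinearMap.range_prodMap]
  rw [h, Module.finrank_prod, LinearEquiv.finrank_eq (prodSubEquiv _ _), Module.finrank_prod]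
  push_cast
  ring

/-- if the norm vanishes, `c` is the dimension -/
lemma c_of_norm_zero (h : ρ.norm = 0) : c ρ = Module.finrank K V := by
  unfold c
  rw [h, LinearMap.range_zero, finrank_bot]
  simp

end c

section free
variable (U : Type*) [AddCommGroup U] [Module K U]

/-- the operator `x` on the free module over `U` -/
def fx : Module.End K (U × U × U × U) where
  toFun v := (0, v.1, 0, v.2.2.1)
  map_add' _ _ := by simp
  map_smul' _ _ := by simp

/-- the operator `y` on the free module over `U` -/
def fy : Module.End K (U × U × U × U) where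
  toFun v := (0, 0, v.1, v.2.1)
  map_add' _ _ := by simp
  map_smul' _ _ := by simp

/-- the free module over `U` -/
def free : Representation K G (U × U × U × U) :=
  repOf (fx U) (fy U) (by ext <;> simp [fx]) (by ext <;> simp [fy]) (by ext <;> simp [fx, fy])

lemma free_X (v : U × U × U × U) : X (free U) v = (0, v.1, 0, v.2.2.1) := by
  unfold free; rw [repOf_X]; rfl
lemma free_Y (v : U × U × U × U) : Y (free U) v = (0, 0, v.1, v.2.1) := by
  unfold free; rw [repOf_Y]; rfl

lemma free_norm (v : U × U × U × U) : (free U).norm v = (0, 0, 0, v.1) := by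
  rw [norm_apply, free_Y, free_X]

lemma c_free [FiniteDimensional K U] : c (free U) = 0 := by
  unfold c
  have h : LinearMap.range (free U).norm =
      LinearMap.range ((LinearMap.inr K U (U × U × U)) ∘ₗ (LinearMap.inr K U (U × U)) ∘ₗ
        (LinearMap.inr K U U)) := by
    ext v
    simp only [LinearMap.mem_range, free_norm, LinearMap.comp_apply, LinearMap.inr_apply]
    constructor
    · rintro ⟨w, rfl⟩
      exact ⟨w.1, rfl⟩
    · rintro ⟨w, rfl⟩
      exact ⟨(w, 0), rfl⟩
  rw [h, LinearMap.finrank_range_of_inj]
  · simp only [Module.finrank_prod]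
    push_cast
    ring
  · intro a b hab
    simpa using hab

variable {U}
variable {V : Type*} [AddCommGroup V] [Module K V] (ρ : Representation K G V)

/-- the map from the free module determined by a linear map -/
def lift (s : U →ₗ[K] V) : (free U).IntertwiningMap ρ :=
  mkHom
    { toFun := fun v => s v.1 + X ρ (s v.2.1) + Y ρ (s v.2.2.1) + X ρ (Y ρ (s v.2.2.2))
      map_add' := fun a b => by simp only [Prod.fst_add, Prod.snd_add, map_add]; abel
      map_smul' := fun r a => by
        simp only [Prod.smul_fst, Prod.smul_snd, map_smul, smul_add, RingHom.id_apply] }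
    (fun v => by
      rw [free_X]
      simp only [LinearMap.coe_mk, AddHom.coe_mk, map_add, map_zero, XX, XY, add_zero, zero_add])
    (fun v => by
      rw [free_Y]
      simp only [LinearMap.coe_mk, AddHom.coe_mk, map_add, map_zero, XY, YY, add_zero, zero_add])

lemma lift_apply (s : U →ₗ[K] V) (v : U × U × U × U) :
    lift ρ s v = s v.1 + X ρ (s v.2.1) + Y ρ (s v.2.2.1) + X ρ (Y ρ (s v.2.2.2)) := rfl

end free

section split
variable {V : Type*} [AddCommGroup V] [Module K V] {ρ : Representation K G V}
variable {W : Type*} [AddCommGroup W] [Module K W] {σ : Representation K G W}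

/-- a split surjection gives a direct sum decomposition -/
noncomputable def splitEquiv (i : σ.IntertwiningMap ρ) (r : ρ.IntertwiningMap σ) (h : ∀ x, r (i x) = x) :
    ρ.Equiv ((r.ker.toRepresentation).prod σ) :=
  .mk
    { toFun := fun v => (⟨v - i (r v), by
        change r (v - i (r v)) = 0
        rw [map_sub, h, sub_self]⟩, r v)
      invFun := fun v => v.1.1 + i v.2
      map_add' := fun a b => by
        ext
        · simp only [map_add, Prod.fst_add, Submodule.coe_add]; abel
        · simp
      map_smul' := fun t a => by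
        ext
        · simp [smul_sub]
        · simp
      left_inv := fun v => by simp
      right_inv := fun v => by
        have h0 : r v.1.1 = 0 := v.1.2
        have h1 : r (v.1.1 + i v.2) = v.2 := by rw [map_add, h0, h, zero_add]
        ext
        · simp only [h1]; abel
        · simp only [h1] }
    (fun g => by
      ext v
      · change ρ g v - i (r (ρ g v)) = ρ g (v - i (r v))
        rw [map_sub, r.isIntertwining, i.isIntertwining]
      · change r (ρ g v) = σ g (r v)
        rw [r.isIntertwining])

end split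

section proj

lemma free_decomp {U : Type*} [AddCommGroup U] [Module K U] (v : U × U × U × U) :
    v = (v.1, 0, 0, 0) + X (free U) (v.2.1, 0, 0, 0) + Y (free U) (v.2.2.1, 0, 0, 0) +
      X (free U) (Y (free U) (v.2.2.2, 0, 0, 0)) := by
  simp only [free_X, free_Y]
  ext <;> simp

lemma free_hom_ext {U V : Type*} [AddCommGroup U] [Module K U] [AddCommGroup V] [Module K V]
    {ρ : Representation K G V} (f f' : (free U).IntertwiningMap ρ)
    (h : ∀ u : U, f (u, 0, 0, 0) = f' (u, 0, 0, 0)) (v : U × U × U × U) : f v = f' v := by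
  rw [free_decomp v]
  simp only [map_add, hom_X, hom_Y, h]

instance projective_free (U : Type) [AddCommGroup U] [Module K U] :
    Projective (Rep.of (free U)) where
  factors {E F} f e he := by
    have hs := (Rep.epi_iff_surjective e).1 he
    obtain ⟨s, hs⟩ := Module.projective_lifting_property e.hom.toLinearMap
      (f.hom.toLinearMap ∘ₗ LinearMap.inl K U (U × U × U)) hs
    refine ⟨Rep.ofHom (lift _ s), ?_⟩
    apply Rep.hom_ext
    apply DFunLike.ext
    apply free_hom_ext
    intro u
    have := LinearMap.congr_fun hs u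
    change e.hom (lift _ s (u, 0, 0, 0)) = f.hom (u, 0, 0, 0)
    rw [lift_apply]
    have h2 : e.hom (s u) = f.hom (u, 0, 0, 0) := this
    simp only [map_zero, add_zero, h2]

lemma projective_prod {A B : Rep.{0} K G} (hA : Projective A) (hB : Projective B) :
    Projective (Rep.of (A.ρ.prod B.ρ)) where
  factors {E F} f e he := by
    obtain ⟨a, ha⟩ := hA.factors (Rep.ofHom (IntertwiningMap.inl K A.ρ B.ρ) ≫ f) e
    obtain ⟨b, hb⟩ := hB.factors (Rep.ofHom (IntertwiningMap.inr K A.ρ B.ρ) ≫ f) e
    refine ⟨Rep.ofHom (IntertwiningMap.fst K A.ρ B.ρ) ≫ a +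
      Rep.ofHom (IntertwiningMap.snd K A.ρ B.ρ) ≫ b, ?_⟩
    rw [Preadditive.add_comp, Category.assoc, Category.assoc, ha, hb]
    apply Rep.hom_ext
    apply DFunLike.ext
    intro v
    change f.hom (v.1, 0) + f.hom (0, v.2) = f.hom v
    rw [← map_add]
    simp

end proj

section core

/-- the composite of the two maps is an involution -/
lemma core_step {V : Type*} [AddCommGroup V] [Module K V] (ρ : Representation K G V)
    (v : V) (hv : ρ.norm v ≠ 0) :
    ∃ (i : (free K).IntertwiningMap ρ) (r : ρ.IntertwiningMap (free K)), ∀ x, r (i x) = x := by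
  obtain ⟨φ, hφ⟩ : ∃ φ : Module.Dual K V, φ (ρ.norm v) ≠ 0 := by
    by_contra h
    push Not at h
    exact hv ((Module.forall_dual_apply_eq_zero_iff K _).1 h)
  have hφ1 : φ (X ρ (Y ρ v)) = 1 := by
    rw [← norm_apply]
    have : ∀ a : K, a ≠ 0 → a = 1 := by decide
    exact this _ hφ
  let i : (free K).IntertwiningMap ρ := lift ρ (LinearMap.toSpanSingleton K V v)
  let r : ρ.IntertwiningMap (free K) := mkHom
    { toFun := fun w => (φ (X ρ (Y ρ w)), φ (Y ρ w), φ (X ρ w), φ w)
      map_add' := fun a b => by simp
      map_smul' := fun a b => by simp }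
    (fun w => by
      rw [free_X]
      simp [XX, XY])
    (fun w => by
      rw [free_Y]
      simp [YY])
  have hr : ∀ w, r w = (φ (X ρ (Y ρ w)), φ (Y ρ w), φ (X ρ w), φ w) := fun _ => rfl
  refine ⟨i, ((r.comp i).comp r), ?_⟩
  intro x
  change r (i (r (i x))) = x
  have key : ∀ x : K × K × K × K, r (i x) = (x.1, x.1 * φ (Y ρ v) + x.2.1,
      x.1 * φ (X ρ v) + x.2.2.1,
      x.1 * φ v + x.2.1 * φ (X ρ v) + x.2.2.1 * φ (Y ρ v) + x.2.2.2) := by
    intro x
    have hi : i x = x.1 • v + x.2.1 • X ρ v + x.2.2.1 • Y ρ v + x.2.2.2 • X ρ (Y ρ v) := by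
      change lift ρ _ x = _
      rw [lift_apply]
      simp
    rw [hr, hi]
    simp only [map_add, map_smul, XX, YY, XY, map_zero, smul_zero, add_zero]
    have hφ2 : φ (Y ρ (X ρ v)) = 1 := by rw [← XY]; exact hφ1
    simp only [smul_eq_mul, hφ2, mul_one]
  rw [key, key]
  have h2 : ∀ a b c d p q s : K,
    (a, a * p + (a * p + b), a * q + (a * q + c),
      a * s + (a * p + b) * q + (a * q + c) * p + (a * s + b * q + c * p + d)) = (a, b, c, d) := by
    decide
  exact h2 _ _ _ _ _ _ _

theorem exists_core (n : ℕ) : ∀ (V : Type) [AddCommGroup V] [Module K V] [FiniteDimensional K V]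
    (ρ : Representation K G V), Module.finrank K V = n →
    ∃ N Q : Rep.{0} K G, FiniteDimensional K N.V ∧ FiniteDimensional K Q.V ∧ Projective Q ∧
      c Q.ρ = 0 ∧ N.ρ.norm = 0 ∧ Nonempty (ρ.Equiv (N.ρ.prod Q.ρ)) := by
  induction n using Nat.strong_induction_on with
  | _ n ih =>
    intro V _ _ _ ρ hn
    by_cases h : ρ.norm = 0
    · refine ⟨Rep.of ρ, Rep.of (free PUnit), ‹_›, ?_, projective_free _, c_free _, h, ⟨?_⟩⟩
      · change FiniteDimensional K (PUnit × PUnit × PUnit × PUnit); infer_instance
      exact .mk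
        { toFun := fun v => (v, 0)
          invFun := fun v => v.1
          map_add' := fun _ _ => by simp
          map_smul' := fun _ _ => by simp
          left_inv := fun _ => rfl
          right_inv := fun v => by
            ext
            rfl }
        (fun g => by
          ext v
          rfl)
    · obtain ⟨v, hv⟩ : ∃ v, ρ.norm v ≠ 0 := by
        by_contra h'
        push Not at h'
        exact h (LinearMap.ext h')
      obtain ⟨i, r, hir⟩ := core_step ρ v hv
      have e := splitEquiv i r hir
      have hfin : Module.finrank K V = Module.finrank K r.ker.toSubmodule +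
          Module.finrank K (K × K × K × K) := by
        rw [LinearEquiv.finrank_eq e.toLinearEquiv, Module.finrank_prod]
      have h4 : Module.finrank K (K × K × K × K) = 4 := by simp
      obtain ⟨N, Q, hN, hQ, hQp, hQc, hNn, ⟨e'⟩⟩ := ih _ (by omega) _
        r.ker.toRepresentation rfl
      refine ⟨N, Rep.of (Q.ρ.prod (free K)), hN, ?_, projective_prod hQp (projective_free K), ?_,
        hNn, ⟨?_⟩⟩
      · change FiniteDimensional K (Q.V × (K × K × K × K)); infer_instance
      · change c (Q.ρ.prod (free K)) = 0
        rw [c_prod, hQc, c_free]; simp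
      · refine e.trans ?_
        exact .mk
          { toFun := fun x => ((e' x.1).1, (e' x.1).2, x.2)
            invFun := fun x => (e'.symm (x.1, x.2.1), x.2.2)
            map_add' := fun a b => by simp
            map_smul' := fun a b => by simp
            left_inv := fun x => by simp
            right_inv := fun x => by simp }
          (fun g => by
            apply LinearMap.ext
            rintro ⟨x1, x2⟩
            have h1 : e' (r.ker.toRepresentation g x1) = (N.ρ.prod Q.ρ) g (e' x1) :=
              IntertwiningMap.isIntertwining _ _ e'.toIntertwiningMap g x1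
            change ((e' (r.ker.toRepresentation g x1)).1, (e' (r.ker.toRepresentation g x1)).2,
              free K g x2) = (N.ρ g (e' x1).1, Q.ρ g (e' x1).2, free K g x2)
            rw [h1]; rfl)

lemma eq_zero_of_invariants {V : Type*} [AddCommGroup V] [Module K V] (ρ : Representation K G V)
    (h : ∀ v, X ρ v = 0 → Y ρ v = 0 → v = 0) (v : V) : v = 0 := by
  have h1 : ∀ v, X ρ v = 0 → v = 0 := fun v hv => by
    have : Y ρ v = 0 := h _ (by rw [XY, hv, map_zero]) (YY ρ v)
    exact h v hv this
  exact h1 v (h1 _ (XX ρ v))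

/-- invariants of a projective module are norms -/
lemma invariants_projective {P : Rep.{0} K G} (hP : Projective P) (v : P.V)
    (hX : X P.ρ v = 0) (hY : Y P.ρ v = 0) : ∃ w, P.ρ.norm w = v := by
  let π : Rep.of (free P.V) ⟶ P := Rep.ofHom (lift P.ρ LinearMap.id)
  have hπ : Epi π := by
    rw [Rep.epi_iff_surjective]
    intro v
    refine ⟨(v, 0, 0, 0), ?_⟩
    change lift P.ρ LinearMap.id (v, 0, 0, 0) = v
    rw [lift_apply]; simp
  obtain ⟨s, hs⟩ := hP.factors (𝟙 P) π
  have hs' : ∀ v, π.hom (s.hom v) = v := fun v => by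
    have := congrArg (fun f : P ⟶ P => f.hom v) hs
    simpa using this
  have h1 : X (free P.V) (s.hom v) = 0 := by
    have := hom_X s.hom v
    rw [hX, map_zero] at this
    exact this.symm
  have h2 : Y (free P.V) (s.hom v) = 0 := by
    have := hom_Y s.hom v
    rw [hY, map_zero] at this
    exact this.symm
  rw [free_X] at h1
  rw [free_Y] at h2
  simp only [Prod.mk_eq_zero] at h1 h2
  have h3 : (free P.V).norm ((s.hom v).2.2.2, 0, 0, 0) = s.hom v := by
    rw [free_norm]
    ext
    · exact h1.2.1.symm
    · exact h2.2.2.2.symm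
    · exact h1.2.2.2.symm
    · rfl
  refine ⟨π.hom ((s.hom v).2.2.2, 0, 0, 0), ?_⟩
  have h4 := norm_comm π.hom ((s.hom v).2.2.2, 0, 0, 0)
  have h5 : π.hom ((free P.V).norm ((s.hom v).2.2.2, 0, 0, 0)) = v := by
    rw [h3, hs']
  exact h4.symm.trans h5

theorem c_projective {P : Rep.{0} K G} [FiniteDimensional K P.V] (hP : Projective P) :
    c P.ρ = 0 := by
  obtain ⟨N, Q, hN, hQ, hQp, hQc, hNn, ⟨e⟩⟩ := exists_core _ P.V P.ρ rfl
  have hNp : Projective N := by
    let i : N ⟶ P := Rep.ofHom (e.symm.toIntertwiningMap.comp (IntertwiningMap.inl K N.ρ Q.ρ))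
    let r : P ⟶ N := Rep.ofHom ((IntertwiningMap.fst K N.ρ Q.ρ).comp e.toIntertwiningMap)
    refine ⟨fun {E F} f p hp => ?_⟩
    obtain ⟨g, hg⟩ := hP.factors (r ≫ f) p
    refine ⟨i ≫ g, ?_⟩
    rw [Category.assoc, hg, ← Category.assoc]
    have : i ≫ r = 𝟙 N := by
      apply Rep.hom_ext
      apply DFunLike.ext
      intro v
      change (e (e.symm (v, 0))).1 = v
      rw [e.apply_symm_apply]
    rw [this, Category.id_comp]
  have h0 : ∀ v : N.V, v = 0 := by
    apply eq_zero_of_invariants N.ρ
    intro v h1 h2
    obtain ⟨w, hw⟩ := invariants_projective hNp v h1 h2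
    rw [← hw, hNn]; rfl
  have : Subsingleton N.V := ⟨fun a b => by rw [h0 a, h0 b]⟩
  rw [c_equiv e, c_prod, hQc, c_of_norm_zero _ hNn, Module.finrank_zero_of_subsingleton]
  simp

end core

end Pool.Agent.Q109.Rat
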