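import Mathlib

/-!
The power series of walks weighted by `2|j|+1` is not rational.
-/

namespace Pool.Agent.Q109.Rat.Series

open PowerSeries

/-- central binomial series -/
noncomputable def B : PowerSeries ℚ := PowerSeries.mk fun n => (Nat.centralBinom n : ℚ)

lemma B_sq : B ^ 2 * (1 - 4 * X) = 1 := by
  set Cs : PowerSeries ℚ := PowerSeries.map (Nat.castRingHom ℚ) catalanSeries with hCs
  have h1 : Cs ^ 2 * X + 1 = Cs := by
    have := congrArg (PowerSeries.map (Nat.castRingHom ℚ)) catalanSeries_sq_mul_X_add_one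
    simpa [hCs] using this
  have hB : d⁄dX ℚ (X * Cs) = B := by
    ext n
    rw [coeff_derivative, coeff_succ_X_mul, hCs, coeff_map, catalanSeries_coeff, B, coeff_mk]
    have := succ_mul_catalan_eq_centralBinom n
    have h2 : ((n + 1 : ℕ) : ℚ) * (catalan n : ℚ) = (Nat.centralBinom n : ℚ) := by
      exact_mod_cast this
    rw [← h2]
    push_cast
    ring
  set D : PowerSeries ℚ := X * Cs with hD
  have h2 : D = X + D ^ 2 := by
    have : X * Cs = X * (Cs ^ 2 * X + 1) := by rw [h1]
    rw [hD]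
    linear_combination this
  have h3 : d⁄dX ℚ D = 1 + 2 * D * d⁄dX ℚ D := by
    conv_lhs => rw [h2]
    rw [map_add, derivative_X, derivative_pow]
    simp
  rw [hB] at h3
  have h4 : B * (1 - 2 * D) = 1 := by linear_combination h3
  have h5 : (1 - 2 * D) ^ 2 = 1 - 4 * X := by linear_combination -4 * h2
  rw [← h5, ← mul_pow, h4, one_pow]

/-- the series of closed walks -/
noncomputable def Z : PowerSeries ℚ := expand 2 two_ne_zero B

lemma Z_sq : Z ^ 2 * (1 - 4 * X ^ 2) = 1 := by
  have := congrArg (expand 2 two_ne_zero) B_sq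
  simpa only [Z, map_mul, map_pow, map_sub, map_one, map_ofNat, expand_X] using this

lemma coeff_Z (n : ℕ) : coeff n Z = if 2 ∣ n then (Nat.centralBinom (n / 2) : ℚ) else 0 := by
  rw [Z, coeff_expand, B]
  simp only [coeff_mk]

theorem not_rational (c : ℕ → ℚ) (h0 : c 0 = 1)
    (hs : ∀ n, c (n + 1) = 2 * c n + 4 * (if 2 ∣ n then (Nat.centralBinom (n / 2) : ℚ) else 0))
    (P Q : Polynomial ℚ) (hQ : Q ≠ 0) :
    (Q : PowerSeries ℚ) * PowerSeries.mk c ≠ (P : PowerSeries ℚ) := by
  intro h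
  have h1 : (1 - 2 * X) * PowerSeries.mk c = 1 + 4 * X * Z := by
    ext n
    cases n with
    | zero =>
      simp [h0]
    | succ n =>
      have e1 : (1 - 2 * X) * PowerSeries.mk c = PowerSeries.mk c - C 2 * (X * PowerSeries.mk c) := by
        have : (2 : PowerSeries ℚ) = C 2 := (map_ofNat C 2).symm
        rw [this]; ring
      have e2 : (1 : PowerSeries ℚ) + 4 * X * Z = 1 + C 4 * (X * Z) := by
        have : (4 : PowerSeries ℚ) = C 4 := (map_ofNat C 4).symm
        rw [this]; ring
      rw [e1, e2, map_sub, map_add, coeff_C_mul, coeff_C_mul, coeff_succ_X_mul, coeff_succ_X_mul,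
        coeff_mk, coeff_mk, hs, coeff_Z, coeff_one]
      simp
  have h2 : (Q : PowerSeries ℚ) * (1 + 4 * X * Z) = (P : PowerSeries ℚ) * (1 - 2 * X) := by
    rw [← h1, ← h]; ring
  have h3 : (4 * X * (Q : PowerSeries ℚ)) * Z = (P : PowerSeries ℚ) * (1 - 2 * X) - (Q : PowerSeries ℚ) := by
    linear_combination h2
  have h4 : (4 * X * (Q : PowerSeries ℚ)) ^ 2 =
      ((P : PowerSeries ℚ) * (1 - 2 * X) - (Q : PowerSeries ℚ)) ^ 2 * (1 - 4 * X ^ 2) := by
    rw [← h3]
    linear_combination (-(4 * X * (Q : PowerSeries ℚ)) ^ 2) * Z_sq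
  set R : Polynomial ℚ := P * (1 - 2 * Polynomial.X) - Q with hR
  set S : Polynomial ℚ := 4 * Polynomial.X * Q with hS
  have h5 : S ^ 2 = R ^ 2 * (1 - 4 * Polynomial.X ^ 2) := by
    have : ((S ^ 2 : Polynomial ℚ) : PowerSeries ℚ) =
        ((R ^ 2 * (1 - 4 * Polynomial.X ^ 2) : Polynomial ℚ) : PowerSeries ℚ) := by
      have e4 : ((4 : Polynomial ℚ) : PowerSeries ℚ) = 4 := by
        have : (4 : Polynomial ℚ) = Polynomial.C 4 := (map_ofNat Polynomial.C 4).symm
        rw [this, Polynomial.coe_C]; exact map_ofNat C 4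
      have e2 : ((2 : Polynomial ℚ) : PowerSeries ℚ) = 2 := by
        have : (2 : Polynomial ℚ) = Polynomial.C 2 := (map_ofNat Polynomial.C 2).symm
        rw [this, Polynomial.coe_C]; exact map_ofNat C 2
      simp only [hR, hS, Polynomial.coe_mul, Polynomial.coe_pow, Polynomial.coe_sub,
        Polynomial.coe_X, Polynomial.coe_one, e4, e2]
      exact h4
    exact_mod_cast this
  have hS0 : S ≠ 0 := by
    rw [hS]
    refine mul_ne_zero (mul_ne_zero (by norm_num) Polynomial.X_ne_zero) hQ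
  have hR0 : R ≠ 0 := by
    intro h0
    rw [h0] at h5
    simp at h5
    exact hS0 h5
  have hfac : (1 - 4 * Polynomial.X ^ 2 : Polynomial ℚ) =
      Polynomial.C (-2) * (1 + 2 * Polynomial.X) * (Polynomial.X - Polynomial.C (1 / 2)) := by
    have e : (Polynomial.C (1 / 2) : Polynomial ℚ) * 2 = 1 := by
      have : (2 : Polynomial ℚ) = Polynomial.C 2 := (map_ofNat Polynomial.C 2).symm
      rw [this, ← Polynomial.C_mul]; norm_num
    have e' : (Polynomial.C (-2) : Polynomial ℚ) = -2 := by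
      rw [map_neg]; exact congrArg _ (map_ofNat Polynomial.C 2)
    rw [e']
    linear_combination (-(1 + 2 * Polynomial.X)) * e
  have hne : (1 - 4 * Polynomial.X ^ 2 : Polynomial ℚ) ≠ 0 := by
    intro h0
    have := congrArg (Polynomial.eval 0) h0
    simp at this
  have hm : Polynomial.rootMultiplicity (1 / 2) (1 - 4 * Polynomial.X ^ 2 : Polynomial ℚ) = 1 := by
    rw [hfac] at hne ⊢
    rw [Polynomial.rootMultiplicity_mul hne, Polynomial.rootMultiplicity_X_sub_C_self,
      Polynomial.rootMultiplicity_eq_zero]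
    simp [Polynomial.IsRoot]
  have h6 := congrArg (Polynomial.rootMultiplicity (1 / 2)) h5
  rw [Polynomial.rootMultiplicity_mul (mul_ne_zero (pow_ne_zero 2 hR0) hne), hm, sq, sq,
    Polynomial.rootMultiplicity_mul (mul_ne_zero hS0 hS0),
    Polynomial.rootMultiplicity_mul (mul_ne_zero hR0 hR0)] at h6
  omega

section walk

/-- one step of the walk operator -/
def step (f : ℤ → ℤ) (j : ℤ) : ℤ := f (j + 1) + f (j - 1)

lemma step_iterate (f : ℤ → ℤ) (n : ℕ) (j : ℤ) :
    step^[n] f j = ∑ k ∈ Finset.range (n + 1), (n.choose k : ℤ) * f (j + n - 2 * k) := by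
  induction n generalizing j with
  | zero => simp
  | succ n ih =>
    rw [Function.iterate_succ_apply']
    change step^[n] f (j + 1) + step^[n] f (j - 1) = _
    rw [ih, ih, Finset.sum_range_succ' _ (n + 1)]
    have e1 : ∀ k ∈ Finset.range (n + 1),
        ((n + 1).choose (k + 1) : ℤ) * f (j + (n + 1 : ℕ) - 2 * ((k + 1 : ℕ) : ℤ)) =
        (n.choose k : ℤ) * f (j - 1 + n - 2 * k) +
          (n.choose (k + 1) : ℤ) * f (j + 1 + n - 2 * ((k + 1 : ℕ) : ℤ)) := by
      intro k _
      rw [Nat.choose_succ_succ]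
      have a1 : j + (n + 1 : ℕ) - 2 * ((k + 1 : ℕ) : ℤ) = j - 1 + n - 2 * k := by
        push_cast; ring
      have a2 : j + 1 + n - 2 * ((k + 1 : ℕ) : ℤ) = j - 1 + n - 2 * k := by
        push_cast; ring
      rw [a1, a2]
      push_cast
      ring
    rw [Finset.sum_congr rfl e1, Finset.sum_add_distrib]
    have e2 : ∑ k ∈ Finset.range (n + 1), (n.choose k : ℤ) * f (j + 1 + n - 2 * k) =
        ∑ k ∈ Finset.range (n + 1),
          (n.choose (k + 1) : ℤ) * f (j + 1 + n - 2 * ((k + 1 : ℕ) : ℤ)) +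
        ((n + 1).choose 0 : ℤ) * f (j + (n + 1 : ℕ) - 2 * ((0 : ℕ) : ℤ)) := by
      have a3 : j + (n + 1 : ℕ) - 2 * ((0 : ℕ) : ℤ) = j + 1 + n - 2 * ((0 : ℕ) : ℤ) := by
        push_cast; ring
      have a4 : ((n + 1).choose 0 : ℤ) = (n.choose 0 : ℤ) := by simp
      rw [a3, a4,
        ← Finset.sum_range_succ' (fun k : ℕ => (n.choose k : ℤ) * f (j + 1 + n - 2 * k)) (n + 1),
        Finset.sum_range_succ _ (n + 1)]
      simp
    rw [e2]
    ring

lemma walk_rec (f : ℤ → ℤ) (hf : ∀ j, f (j + 1) + f (j - 1) = 2 * f j + if j = 0 then 4 else 0)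
    (n : ℕ) : step^[n + 1] f 0 = 2 * step^[n] f 0 +
      4 * (if 2 ∣ n then (Nat.centralBinom (n / 2) : ℤ) else 0) := by
  rw [Function.iterate_succ_apply, step_iterate, step_iterate]
  have e1 : ∀ k ∈ Finset.range (n + 1),
      (n.choose k : ℤ) * step f (0 + n - 2 * k) =
      2 * ((n.choose k : ℤ) * f (0 + n - 2 * k)) +
        (if (0 : ℤ) + n - 2 * k = 0 then 4 * (n.choose k : ℤ) else 0) := by
    intro k _
    rw [step, hf]
    split_ifs
    · ring
    · ring
  rw [Finset.sum_congr rfl e1, Finset.sum_add_distrib, ← Finset.mul_sum]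
  congr 1
  split_ifs with h2
  · obtain ⟨m, rfl⟩ := h2
    rw [Finset.sum_eq_single m]
    · rw [if_pos (by push_cast; ring), Nat.mul_div_cancel_left _ (by norm_num),
        Nat.centralBinom_eq_two_mul_choose]
    · intro b _ hb
      rw [if_neg]
      intro h
      apply hb
      push_cast at h
      omega
    · intro h
      simp at h
      omega
  · rw [Finset.sum_eq_zero]
    · simp
    · intro k _
      rw [if_neg]
      intro h
      apply h2
      exact ⟨k, by omega⟩

end walk

end Pool.Agent.Q109.Rat.Series
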