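import Pool.Agent.Q109.Rat.Mods
import Pool.Agent.Q109.Rat.Series

/-!
The core-dimension series of `Ω k ⊕ Ω⁻¹ k` for the Klein four group is not rational.
-/

open CategoryTheory CategoryTheory.MonoidalCategory CategoryTheory.Limits
open scoped TensorProduct

namespace Pool.Agent.Q109.Rat

open Representation

/-- the set of dimensions of complements of projective summands -/
def dims (A : Rep.{0} K G) : Set ℕ :=
  {d : ℕ | ∃ N P' : Rep.{0} K G, Projective P' ∧ Nonempty (A ≅ N ⊞ P') ∧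
    Module.finrank K N.V = d}

theorem sInf_dims (A : Rep.{0} K G) [FiniteDimensional K A.V] : ((sInf (dims A) : ℕ) : ℤ) = c A.ρ := by
  have hmem : ∃ d ∈ dims A, (d : ℤ) = c A.ρ := by
    obtain ⟨N, Q, hN, hQ, hQp, hQc, hNn, ⟨e⟩⟩ := exists_core _ A.V A.ρ rfl
    refine ⟨Module.finrank K N.V, ⟨N, Q, hQp, ⟨?_⟩, rfl⟩, ?_⟩
    · exact (Rep.mkIso (ρ := A.ρ) (σ := N.ρ.prod Q.ρ) e) ≪≫ prodIso N Q
    · rw [c_equiv e, c_prod, hQc, c_of_norm_zero _ hNn, add_zero]
  obtain ⟨d, hd, hdc⟩ := hmem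
  have hlow : ∀ d' ∈ dims A, c A.ρ ≤ d' := by
    rintro _ ⟨N, P', hP', ⟨e⟩, rfl⟩
    let e' : A ≅ Rep.of (N.ρ.prod P'.ρ) := e ≪≫ (prodIso N P').symm
    let e'' : A.ρ.Equiv (N.ρ.prod P'.ρ) := Representation.equivOfIso e'
    have hNP : FiniteDimensional K (N.V × P'.V) := Module.Finite.equiv e''.toLinearEquiv
    have hN : FiniteDimensional K N.V :=
      FiniteDimensional.of_injective (LinearMap.inl K N.V P'.V) LinearMap.inl_injective
    have hP : FiniteDimensional K P'.V :=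
      FiniteDimensional.of_injective (LinearMap.inr K N.V P'.V) LinearMap.inr_injective
    rw [c_equiv e'', c_prod, c_projective hP', add_zero]
    unfold c
    have : (0 : ℤ) ≤ 4 * (Module.finrank K (LinearMap.range N.ρ.norm) : ℤ) := by positivity
    linarith
  have h1 : sInf (dims A) ≤ d := Nat.sInf_le hd
  have h2 : c A.ρ ≤ (sInf (dims A) : ℕ) := hlow _ (Nat.sInf_mem ⟨d, hd⟩)
  have h3 : ((sInf (dims A) : ℕ) : ℤ) ≤ d := by exact_mod_cast h1
  omega

lemma a_eq (n : ℕ) (j : ℤ) : a n j = Series.step^[n] (fun j => 2 * |j| + 1) j := by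
  induction n generalizing j with
  | zero => exact a_zero j
  | succ n ih =>
    rw [Function.iterate_succ_apply', a_succ, ih, ih]
    rfl

lemma abs_step (j : ℤ) : (2 * |j + 1| + 1) + (2 * |j - 1| + 1) =
    2 * (2 * |j| + 1) + if j = 0 then 4 else 0 := by
  rcases lt_trichotomy j 0 with h | h | h
  · rw [if_neg h.ne, abs_of_neg h, abs_of_nonpos (by omega), abs_of_neg (by omega)]
    ring
  · subst h
    simp
  · rw [if_neg h.ne', abs_of_pos h, abs_of_pos (by omega), abs_of_nonneg (by omega)]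
    ring

theorem main (P Q : Polynomial ℚ) (hQ : Q ≠ 0) :
    (Q : PowerSeries ℚ) * PowerSeries.mk (fun n : ℕ => ((sInf (dims (Mn n)) : ℕ) : ℚ)) ≠
      (P : PowerSeries ℚ) := by
  have hc : ∀ n, ((sInf (dims (Mn n)) : ℕ) : ℤ) = a n 0 := fun n => by
    rw [sInf_dims, c_Mn]
  apply Series.not_rational _ _ _ P Q hQ
  · have : ((sInf (dims (Mn 0)) : ℕ) : ℤ) = 1 := by rw [hc, a_zero]; simp
    exact_mod_cast this
  · intro n
    have h : ((sInf (dims (Mn (n + 1))) : ℕ) : ℤ) = 2 * ((sInf (dims (Mn n)) : ℕ) : ℤ) +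
        4 * (if 2 ∣ n then (Nat.centralBinom (n / 2) : ℤ) else 0) := by
      rw [hc, hc, a_eq, a_eq]
      exact Series.walk_rec _ abs_step n
    have h' := congrArg (fun z : ℤ => (z : ℚ)) h
    push_cast at h'
    exact h'

end Pool.Agent.Q109.Rat
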