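import Pool.Agent.Q109.Rat.Stable

/-!
The syzygies of the trivial module.
-/

open CategoryTheory CategoryTheory.MonoidalCategory CategoryTheory.Limits
open scoped TensorProduct

namespace Pool.Agent.Q109.Rat

open Representation

/-- precomposition as a linear map -/
def pre {m n : ℕ} (e : Fin n → Fin m) : (Fin m → K) →ₗ[K] (Fin n → K) := LinearMap.funLeft K K e

/-- append a zero -/
def snocz (n : ℕ) : (Fin n → K) →ₗ[K] (Fin (n + 1) → K) where
  toFun w := Fin.snoc (α := fun _ => K) w 0
  map_add' a b := by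
    ext i
    refine Fin.lastCases ?_ (fun i => ?_) i <;> simp
  map_smul' a b := by
    ext i
    refine Fin.lastCases ?_ (fun i => ?_) i <;> simp

/-- prepend a zero -/
def consz (n : ℕ) : (Fin n → K) →ₗ[K] (Fin (n + 1) → K) where
  toFun w := Fin.cons (α := fun _ => K) 0 w
  map_add' a b := by
    ext i
    refine Fin.cases ?_ (fun i => ?_) i <;> simp
  map_smul' a b := by
    ext i
    refine Fin.cases ?_ (fun i => ?_) i <;> simp

section op
variable {U W : Type} [AddCommGroup U] [Module K U] [AddCommGroup W] [Module K W]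

/-- strictly triangular operator -/
def tri (f : U →ₗ[K] W) : Module.End K (U × W) := LinearMap.inr K U W ∘ₗ f ∘ₗ LinearMap.fst K U W

lemma tri_apply (f : U →ₗ[K] W) (v : U × W) : tri f v = (0, f v.1) := rfl

lemma tri_mul (f g : U →ₗ[K] W) : tri f * tri g = 0 := by
  ext v <;> simp [tri_apply, Module.End.mul_apply]

/-- the representation attached to a Kronecker module -/
def kron (f g : U →ₗ[K] W) : Representation K G (U × W) :=
  repOf (tri f) (tri g) (tri_mul _ _) (tri_mul _ _) (by rw [tri_mul, tri_mul])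

lemma kron_X (f g : U →ₗ[K] W) (v : U × W) : X (kron f g) v = (0, f v.1) := by
  unfold kron; rw [repOf_X]; rfl

lemma kron_Y (f g : U →ₗ[K] W) (v : U × W) : Y (kron f g) v = (0, g v.1) := by
  unfold kron; rw [repOf_Y]; rfl

lemma kron_norm (f g : U →ₗ[K] W) : (kron f g).norm = 0 := by
  apply LinearMap.ext
  intro v
  rw [norm_apply, kron_Y, kron_X]; simp

end op

/-- the `n`-th syzygy -/
def wp (n : ℕ) : Representation K G ((Fin (n + 1) → K) × (Fin n → K)) :=
  kron (pre Fin.castSucc) (pre Fin.succ)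

/-- the `n`-th cosyzygy -/
def wn (n : ℕ) : Representation K G ((Fin n → K) × (Fin (n + 1) → K)) :=
  kron (snocz n) (consz n)

/-- the modules `Ω^j k` -/
def W : ℤ → Rep.{0} K G
  | Int.ofNat n => Rep.of (wp n)
  | Int.negSucc n => Rep.of (wn (n + 1))

instance (j : ℤ) : FiniteDimensional K (W j).V := by
  cases j with
  | ofNat n => exact inferInstanceAs (FiniteDimensional K ((Fin (n + 1) → K) × (Fin n → K)))
  | negSucc n => exact inferInstanceAs (FiniteDimensional K ((Fin (n + 1) → K) × (Fin (n + 1 + 1) → K)))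

lemma c_wp (n : ℕ) : c (wp n) = 2 * (n : ℤ) + 1 := by
  rw [c_of_norm_zero _ (kron_norm _ _)]
  simp
  ring

lemma c_wn (n : ℕ) : c (wn n) = 2 * (n : ℤ) + 1 := by
  rw [c_of_norm_zero _ (kron_norm _ _)]
  simp
  ring

lemma c_W (j : ℤ) : c (W j).ρ = 2 * |j| + 1 := by
  cases j with
  | ofNat n => exact (c_wp n).trans (by simp)
  | negSucc n =>
    refine (c_wn (n + 1)).trans ?_
    have : |Int.negSucc n| = ((n + 1 : ℕ) : ℤ) := by
      rw [Int.negSucc_eq, abs_neg]
      exact_mod_cast abs_of_nonneg (by positivity : (0 : ℤ) ≤ (n : ℤ) + 1)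
    rw [this]

lemma syz_p (n : ℕ) : Syz (Rep.of (wp (n + 1))) (Rep.of (wp n)) := by
  let i : (wp (n + 1)).IntertwiningMap (free (Fin (n + 1) → K)) := mkHom
    { toFun := fun v => (0, v.1 ∘ Fin.succ, v.1 ∘ Fin.castSucc, v.2)
      map_add' := fun a b => by ext <;> simp
      map_smul' := fun a b => by ext <;> simp }
    (fun v => by
      rw [free_X]
      simp only [wp, kron_X]
      rfl)
    (fun v => by
      rw [free_Y]
      simp only [wp, kron_Y]
      rfl)
  let p : (free (Fin (n + 1) → K)).IntertwiningMap (wp n) := lift (wp n) (LinearMap.inl K _ _)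
  have hp : ∀ v, p v = (v.1, v.2.1 ∘ Fin.castSucc + v.2.2.1 ∘ Fin.succ) := fun v => by
    change lift (wp n) _ v = _
    rw [lift_apply]
    simp only [LinearMap.inl_apply, wp, kron_X, kron_Y]
    ext k
    · simp
    · simp [pre, LinearMap.funLeft]
  refine ⟨Rep.of (free (Fin (n + 1) → K)), Rep.ofHom i, Rep.ofHom p, projective_free _, ?_, ?_, ?_, ?_⟩
  · change FiniteDimensional K ((Fin (n + 1) → K) × (Fin (n + 1) → K) × (Fin (n + 1) → K) × (Fin (n + 1) → K))
    infer_instance
  · rintro ⟨a, b⟩ ⟨a', b'⟩ h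
    have h' : ((0 : Fin (n + 1) → K), a ∘ Fin.succ, a ∘ Fin.castSucc, b) =
      (0, a' ∘ Fin.succ, a' ∘ Fin.castSucc, b') := h
    simp only [Prod.mk.injEq, true_and] at h'
    obtain ⟨h1, h2, h3⟩ := h'
    refine Prod.ext ?_ h3
    ext k
    refine Fin.cases ?_ (fun k => ?_) k
    · exact congrFun h2 0
    · exact congrFun h1 k
  · rintro ⟨a, b⟩
    refine ⟨(a, Fin.snoc (α := fun _ => K) b 0, 0, 0), ?_⟩
    change p _ = _
    rw [hp]
    ext k
    · rfl
    · simp
  · rintro ⟨α, β, γ, δ⟩
    change p _ = 0 ↔ _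
    rw [hp]
    constructor
    · intro h
      simp only [Prod.mk_eq_zero] at h
      obtain ⟨h1, h2⟩ := h
      refine ⟨(Fin.cons (α := fun _ => K) (γ 0) β, δ), ?_⟩
      change ((0 : Fin (n + 1) → K), _ ∘ Fin.succ, _ ∘ Fin.castSucc, δ) = _
      rw [h1]
      refine Prod.ext rfl (Prod.ext ?_ (Prod.ext ?_ rfl))
      · ext k; simp
      · ext k
        refine Fin.cases ?_ (fun k => ?_) k
        · rfl
        · have := congrFun h2 k
          simp only [Pi.add_apply, Function.comp_apply, Pi.zero_apply] at this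
          rw [add_eq_zero_iff_eq_neg, neg_self] at this
          simpa using this
    · rintro ⟨⟨a, b⟩, h⟩
      have h' : ((0 : Fin (n + 1) → K), a ∘ Fin.succ, a ∘ Fin.castSucc, b) = (α, β, γ, δ) := h
      simp only [Prod.mk.injEq] at h'
      obtain ⟨h1, h2, h3, h4⟩ := h'
      subst h1 h2 h3 h4
      refine Prod.ext rfl ?_
      ext k
      exact add_self _

lemma syz_n (n : ℕ) : Syz (Rep.of (wn n)) (Rep.of (wn (n + 1))) := by
  let i : (wn n).IntertwiningMap (free (Fin (n + 1) → K)) := mkHom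
    { toFun := fun v => (0, consz n v.1, snocz n v.1, v.2)
      map_add' := fun a b => by
        simp only [Prod.fst_add, Prod.snd_add, map_add, Prod.mk_add_mk, add_zero]
      map_smul' := fun a b => by
        simp only [Prod.smul_fst, Prod.smul_snd, map_smul, Prod.smul_mk, smul_zero,
          RingHom.id_apply] }
    (fun v => by
      rw [free_X]
      simp only [wn, kron_X]
      simp)
    (fun v => by
      rw [free_Y]
      simp only [wn, kron_Y]
      simp)
  let p : (free (Fin (n + 1) → K)).IntertwiningMap (wn (n + 1)) :=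
    lift (wn (n + 1)) (LinearMap.inl K _ _)
  have hp : ∀ v, p v = (v.1, snocz (n + 1) v.2.1 + consz (n + 1) v.2.2.1) := fun v => by
    change lift (wn (n + 1)) _ v = _
    rw [lift_apply]
    simp only [LinearMap.inl_apply, wn, kron_X, kron_Y]
    simp
  refine ⟨Rep.of (free (Fin (n + 1) → K)), Rep.ofHom i, Rep.ofHom p, projective_free _, ?_, ?_, ?_, ?_⟩
  · change FiniteDimensional K ((Fin (n + 1) → K) × (Fin (n + 1) → K) × (Fin (n + 1) → K) × (Fin (n + 1) → K))
    infer_instance
  · rintro ⟨a, b⟩ ⟨a', b'⟩ h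
    have h' : ((0 : Fin (n + 1) → K), consz n a, snocz n a, b) =
      (0, consz n a', snocz n a', b') := h
    simp only [Prod.mk.injEq, true_and] at h'
    obtain ⟨h1, h2, h3⟩ := h'
    refine Prod.ext ?_ h3
    ext k
    have := congrFun h1 k.succ
    simpa [consz] using this
  · rintro ⟨a, b⟩
    refine ⟨(a, b ∘ Fin.castSucc, Pi.single (Fin.last n) (b (Fin.last _)), 0), ?_⟩
    change p _ = _
    rw [hp]
    refine Prod.ext rfl ?_
    ext k
    refine Fin.lastCases ?_ (fun k => ?_) k
    · simp only [snocz, consz, LinearMap.coe_mk, AddHom.coe_mk, Pi.add_apply, Fin.snoc_last,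
        zero_add]
      rw [← Fin.succ_last, Fin.cons_succ, Pi.single_eq_same]
    · simp only [snocz, consz, LinearMap.coe_mk, AddHom.coe_mk, Pi.add_apply, Fin.snoc_castSucc,
        Function.comp_apply]
      have : Fin.cons (α := fun _ => K) 0 (Pi.single (Fin.last n) (b (Fin.last _))) k.castSucc = 0 := by
        refine Fin.cases ?_ (fun k => ?_) k
        · rfl
        · rw [← Fin.succ_castSucc, Fin.cons_succ, Pi.single_eq_of_ne]
          exact (Fin.castSucc_lt_last k).ne
      rw [this, add_zero]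
  · rintro ⟨α, β, γ, δ⟩
    change p _ = 0 ↔ _
    rw [hp]
    constructor
    · intro h
      simp only [Prod.mk_eq_zero] at h
      obtain ⟨h1, h2⟩ := h
      refine ⟨(β ∘ Fin.succ, δ), ?_⟩
      change ((0 : Fin (n + 1) → K), consz n _, snocz n _, δ) = _
      rw [h1]
      refine Prod.ext rfl (Prod.ext ?_ (Prod.ext ?_ rfl))
      · ext k
        refine Fin.cases ?_ (fun k => ?_) k
        · have := congrFun h2 0
          simp only [snocz, consz, LinearMap.coe_mk, AddHom.coe_mk, Pi.add_apply, Pi.zero_apply,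
            Fin.cons_zero, add_zero] at this
          rw [← Fin.castSucc_zero, Fin.snoc_castSucc] at this
          exact this.symm
        · simp [consz]
      · ext k
        have := congrFun h2 k.succ
        simp only [snocz, consz, LinearMap.coe_mk, AddHom.coe_mk, Pi.add_apply, Pi.zero_apply,
            Fin.cons_succ] at this
        rw [add_eq_zero_iff_eq_neg, neg_self] at this
        change Fin.snoc (α := fun _ => K) _ 0 k = γ k
        rw [← this]
        refine Fin.lastCases ?_ (fun k => ?_) k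
        · rw [Fin.succ_last, Fin.snoc_last, Fin.snoc_last]
        · rw [Fin.snoc_castSucc, Fin.succ_castSucc, Fin.snoc_castSucc]
          rfl
    · rintro ⟨⟨a, b⟩, h⟩
      have h' : ((0 : Fin (n + 1) → K), consz n a, snocz n a, b) = (α, β, γ, δ) := h
      simp only [Prod.mk.injEq] at h'
      obtain ⟨h1, h2, h3, h4⟩ := h'
      subst h1 h2 h3 h4
      refine Prod.ext rfl ?_
      ext k
      change Fin.snoc (α := fun _ => K) (Fin.cons (α := fun _ => K) 0 a) 0 k +
        Fin.cons (α := fun _ => K) 0 (Fin.snoc (α := fun _ => K) a 0) k = 0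
      rw [Fin.cons_snoc_eq_snoc_cons]
      exact add_self _

lemma syz_0 : Syz (Rep.of (wp 0)) (Rep.of (wn 1)) := by
  obtain ⟨P, i, p, hP, hfd, hi, hp, hex⟩ := syz_n 0
  let e : (wp 0).IntertwiningMap (wn 0) := mkHom
    { toFun := fun v => (v.2, v.1)
      map_add' := fun a b => rfl
      map_smul' := fun a b => rfl }
    (fun v => by
      simp only [wp, wn, kron_X]
      ext k
      · exact k.elim0
      · simp only [LinearMap.coe_mk, AddHom.coe_mk]
        have : k = 0 := Fin.ext (by omega)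
        subst this
        rfl)
    (fun v => by
      simp only [wp, wn, kron_Y]
      ext k
      · exact k.elim0
      · simp only [LinearMap.coe_mk, AddHom.coe_mk]
        have : k = 0 := Fin.ext (by omega)
        subst this
        rfl)
  refine ⟨P, Rep.ofHom e ≫ i, p, hP, hfd, ?_, hp, ?_⟩
  · intro a b h
    have h' : i.hom (e a) = i.hom (e b) := h
    have h2 : (a.2, a.1) = (b.2, b.1) := hi h'
    exact Prod.ext (congrArg Prod.snd h2) (congrArg Prod.fst h2)
  · intro y
    rw [hex]
    constructor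
    · rintro ⟨x, rfl⟩
      exact ⟨(x.2, x.1), rfl⟩
    · rintro ⟨x, rfl⟩
      exact ⟨(x.2, x.1), rfl⟩

lemma syz_W (j : ℤ) : Syz (W (j + 1)) (W j) := by
  rcases j with n | n
  · exact syz_p n
  · rcases n with _ | n
    · exact syz_0
    · exact syz_n (n + 1)

/-- `W 0` is trivial -/
noncomputable def wp0Iso : Rep.of (wp 0) ≅ 𝟙_ (Rep.{0} K G) :=
  Rep.mkIso (.mk
    { toFun := fun v => v.1 0
      invFun := fun a => (fun _ => a, 0)
      map_add' := fun a b => rfl
      map_smul' := fun a b => rfl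
      left_inv := fun v => by
        refine Prod.ext ?_ ?_
        · funext k
          have : k = (0 : Fin 1) := Subsingleton.elim (α := Fin 1) _ _
          subst this
          rfl
        · funext k
          exact k.elim0
      right_inv := fun a => rfl }
    (intertwining_of (ρ := wp 0) (σ := Representation.trivial K G K)
      { toFun := fun v => v.1 0
        map_add' := fun a b => rfl
        map_smul' := fun a b => rfl }
      (fun v => by
        simp only [wp, kron_X]
        exact (add_self (V := K) (v.1 0)).symm)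
      (fun v => by
        simp only [wp, kron_Y]
        exact (add_self (V := K) (v.1 0)).symm)))

/-- `W 0` is trivial -/
noncomputable def W0 : W 0 ≅ 𝟙_ (Rep.{0} K G) := wp0Iso

/-- stable equality of core dimensions -/
def Eqv (A B : Rep.{0} K G) : Prop :=
  ∀ T : Rep.{0} K G, FiniteDimensional K T.V → c (A ⊗ T).ρ = c (B ⊗ T).ρ

lemma Eqv.symm {A B : Rep.{0} K G} (h : Eqv A B) : Eqv B A := fun T hT => (h T hT).symm

lemma Eqv.trans {A B C : Rep.{0} K G} (h : Eqv A B) (h' : Eqv B C) : Eqv A C :=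
  fun T hT => (h T hT).trans (h' T hT)

lemma Eqv.of_iso {A B : Rep.{0} K G} (e : A ≅ B) : Eqv A B :=
  fun T _ => c_iso (MonoidalCategory.whiskerRightIso e T)

lemma Eqv.right {A B : Rep.{0} K G} (h : Eqv A B) (Z : Rep.{0} K G) [FiniteDimensional K Z.V] :
    Eqv (A ⊗ Z) (B ⊗ Z) := fun T hT => by
  have : FiniteDimensional K (Z ⊗ T).V := inferInstanceAs (FiniteDimensional K (Z.V ⊗[K] T.V))
  rw [c_iso (α_ A Z T), c_iso (α_ B Z T)]
  exact h _ this

lemma Eqv.of_syz {A B Z : Rep.{0} K G} [FiniteDimensional K A.V] [FiniteDimensional K B.V]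
    (hA : Syz A Z) (hB : Syz B Z) : Eqv A B := fun _ _ => c_syz hA hB

lemma eqv_A (j : ℤ) : Eqv (W j ⊗ W 1) (W (j + 1)) := by
  have : FiniteDimensional K (W j ⊗ W 1).V := inferInstanceAs (FiniteDimensional K ((W j).V ⊗[K] (W 1).V))
  refine Eqv.of_syz (Z := W j) ?_ (syz_W j)
  have h : Syz (W 1) (𝟙_ (Rep.{0} K G)) := (syz_W 0).congr W0
  exact (h.tensor (W j)).congr (ρ_ _)

lemma eqv_B (j : ℤ) : Eqv (W j ⊗ W (-1)) (W (j - 1)) := by
  have h1 : Eqv (W (-1) ⊗ W 1) (𝟙_ (Rep.{0} K G)) := by
    have := eqv_A (-1)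
    exact this.trans (Eqv.of_iso W0)
  have h2 : Eqv (W j) (W (j - 1) ⊗ W 1) := by
    have := (eqv_A (j - 1)).symm
    rwa [sub_add_cancel] at this
  refine (h2.right (W (-1))).trans ?_
  refine (Eqv.of_iso (α_ (W (j - 1)) (W 1) (W (-1)))).trans ?_
  refine (Eqv.of_iso (β_ _ _)).trans ?_
  refine (Eqv.of_iso (MonoidalCategory.whiskerRightIso (β_ (W 1) (W (-1))) (W (j - 1)))).trans ?_
  exact (h1.right (W (j - 1))).trans (Eqv.of_iso (λ_ _))

/-- the module of the counterexample -/
noncomputable def M : Rep.{0} K G := Rep.of ((W 1).ρ.prod (W (-1)).ρ)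

instance : FiniteDimensional K M.V :=
  inferInstanceAs (FiniteDimensional K ((W 1).V × (W (-1)).V))

/-- tensor powers -/
noncomputable def Mn (n : ℕ) : Rep.{0} K G := (fun X : Rep.{0} K G => X ⊗ M)^[n] (𝟙_ (Rep.{0} K G))

lemma Mn_succ (n : ℕ) : Mn (n + 1) = Mn n ⊗ M := Function.iterate_succ_apply' _ _ _

instance fd_Mn (n : ℕ) : FiniteDimensional K (Mn n).V := by
  induction n with
  | zero => exact inferInstanceAs (FiniteDimensional K K)
  | succ n ih =>
    rw [Mn_succ]
    exact inferInstanceAs (FiniteDimensional K ((Mn n).V ⊗[K] M.V))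

/-- core dimension of the twisted tensor powers -/
noncomputable def a (n : ℕ) (j : ℤ) : ℤ := c (W j ⊗ Mn n).ρ

lemma a_zero (j : ℤ) : a 0 j = 2 * |j| + 1 := by
  rw [← c_W]
  exact c_iso (ρ_ (W j))

lemma a_succ (n : ℕ) (j : ℤ) : a (n + 1) j = a n (j + 1) + a n (j - 1) := by
  unfold a
  rw [Mn_succ]
  have e : W j ⊗ (Mn n ⊗ M) ≅ M ⊗ (W j ⊗ Mn n) :=
    (α_ _ _ _).symm ≪≫ β_ _ _
  rw [c_iso e]
  have : FiniteDimensional K (W j ⊗ Mn n).V :=
    inferInstanceAs (FiniteDimensional K ((W j).V ⊗[K] (Mn n).V))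
  have h := c_prod_tensor (W 1) (W (-1)) (W j ⊗ Mn n)
  have hA : c (W 1 ⊗ (W j ⊗ Mn n)).ρ = c (W (j + 1) ⊗ Mn n).ρ := by
    rw [← eqv_A j (Mn n) inferInstance]
    exact c_iso ((α_ _ _ _).symm ≪≫ MonoidalCategory.whiskerRightIso (β_ (W 1) (W j)) (Mn n))
  have hB : c (W (-1) ⊗ (W j ⊗ Mn n)).ρ = c (W (j - 1) ⊗ Mn n).ρ := by
    rw [← eqv_B j (Mn n) inferInstance]
    exact c_iso ((α_ _ _ _).symm ≪≫ MonoidalCategory.whiskerRightIso (β_ (W (-1)) (W j)) (Mn n))
  rw [← hA, ← hB]
  exact h

lemma c_Mn (n : ℕ) : c (Mn n).ρ = a n 0 := by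
  unfold a
  exact c_iso ((λ_ (Mn n)).symm ≪≫ MonoidalCategory.whiskerRightIso W0.symm (Mn n))

end Pool.Agent.Q109.Rat
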