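import Mathlib

/-!
Representations of the Klein four group over `ZMod 2`, seen as pairs of commuting square-zero
operators.
-/

open CategoryTheory CategoryTheory.MonoidalCategory CategoryTheory.Limits

namespace Pool.Agent.Q109.Rat

abbrev K := ZMod 2
abbrev C2 := Multiplicative (ZMod 2)
abbrev G := C2 × C2

def g₁ : G := (Multiplicative.ofAdd 1, 1)
def g₂ : G := (1, Multiplicative.ofAdd 1)

lemma G_cases (g : G) : g = 1 ∨ g = g₁ ∨ g = g₂ ∨ g = g₁ * g₂ := by
  revert g; decide

lemma g₁_sq : g₁ * g₁ = 1 := by decide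
lemma g₂_sq : g₂ * g₂ = 1 := by decide
lemma g_comm : g₁ * g₂ = g₂ * g₁ := by decide

lemma sum_G {M : Type*} [AddCommMonoid M] (f : G → M) :
    ∑ g : G, f g = f 1 + f g₁ + f g₂ + f (g₁ * g₂) := by
  have : (Finset.univ : Finset G) = {1, g₁, g₂, g₁ * g₂} := by decide
  rw [this, Finset.sum_insert (by decide), Finset.sum_insert (by decide),
    Finset.sum_insert (by decide), Finset.sum_singleton]
  abel

section char2
variable {V : Type*} [AddCommGroup V] [Module K V]

lemma add_self (v : V) : v + v = 0 := by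
  have : (2 : K) • v = 0 := by
    have h : (2 : K) = 0 := by decide
    rw [h, zero_smul]
  rwa [two_smul] at this

lemma neg_self (v : V) : -v = v := by
  rw [neg_eq_iff_add_eq_zero, add_self]

lemma sub_eq (v w : V) : v - w = v + w := by rw [sub_eq_add_neg, neg_self]

end char2

section ops
variable {V : Type*} [AddCommGroup V] [Module K V] (ρ : Representation K G V)
variable {W : Type*} [AddCommGroup W] [Module K W] (σ : Representation K G W)

/-- the operator `g₁ - 1` -/
def X : Module.End K V := ρ g₁ + 1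
/-- the operator `g₂ - 1` -/
def Y : Module.End K V := ρ g₂ + 1

lemma X_apply (v : V) : X ρ v = ρ g₁ v + v := rfl
lemma Y_apply (v : V) : Y ρ v = ρ g₂ v + v := rfl

lemma ρ₁_apply (v : V) : ρ g₁ v = X ρ v + v := by
  rw [X_apply, add_assoc, add_self, add_zero]
lemma ρ₂_apply (v : V) : ρ g₂ v = Y ρ v + v := by
  rw [Y_apply, add_assoc, add_self, add_zero]

lemma ρ₁₁ (v : V) : ρ g₁ (ρ g₁ v) = v := by
  rw [← Module.End.mul_apply, ← map_mul, g₁_sq, map_one]; rfl
lemma ρ₂₂ (v : V) : ρ g₂ (ρ g₂ v) = v := by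
  rw [← Module.End.mul_apply, ← map_mul, g₂_sq, map_one]; rfl
lemma ρ₁₂ (v : V) : ρ g₁ (ρ g₂ v) = ρ (g₁ * g₂) v := by
  rw [map_mul]; rfl
lemma ρ₂₁ (v : V) : ρ g₂ (ρ g₁ v) = ρ (g₁ * g₂) v := by
  rw [g_comm, map_mul]; rfl

lemma XX (v : V) : X ρ (X ρ v) = 0 := by
  simp only [X_apply, map_add, ρ₁₁]
  rw [add_comm v, add_self]

lemma YY (v : V) : Y ρ (Y ρ v) = 0 := by
  simp only [Y_apply, map_add, ρ₂₂]
  rw [add_comm v, add_self]

lemma XY (v : V) : X ρ (Y ρ v) = Y ρ (X ρ v) := by
  simp only [X_apply, Y_apply, map_add, ρ₁₂, ρ₂₁]; abel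

lemma norm_apply (v : V) : ρ.norm v = X ρ (Y ρ v) := by
  simp only [Representation.norm, LinearMap.sum_apply]
  rw [sum_G]
  simp only [X_apply, Y_apply, map_add, ρ₁₂, map_one, Module.End.one_apply]
  abel

variable {ρ σ}

lemma intertwining_of (f : V →ₗ[K] W) (hX : ∀ v, f (X ρ v) = X σ (f v))
    (hY : ∀ v, f (Y ρ v) = Y σ (f v)) (g : G) : f ∘ₗ ρ g = σ g ∘ₗ f := by
  have h1 : ∀ v, f (ρ g₁ v) = σ g₁ (f v) := fun v => by
    rw [ρ₁_apply, map_add, hX, ρ₁_apply]
  have h2 : ∀ v, f (ρ g₂ v) = σ g₂ (f v) := fun v => by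
    rw [ρ₂_apply, map_add, hY, ρ₂_apply]
  ext v
  rcases G_cases g with rfl | rfl | rfl | rfl
  · simp
  · simp [h1]
  · simp [h2]
  · simp [h1, h2]

/-- intertwining map from an operator commuting with `X` and `Y` -/
def mkHom (f : V →ₗ[K] W) (hX : ∀ v, f (X ρ v) = X σ (f v))
    (hY : ∀ v, f (Y ρ v) = Y σ (f v)) : ρ.IntertwiningMap σ := ⟨f, intertwining_of f hX hY⟩

@[simp] lemma mkHom_apply (f : V →ₗ[K] W) (hX : ∀ v, f (X ρ v) = X σ (f v))
    (hY : ∀ v, f (Y ρ v) = Y σ (f v)) (v : V) : mkHom f hX hY v = f v := rfl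

lemma hom_X (f : ρ.IntertwiningMap σ) (v : V) : f (X ρ v) = X σ (f v) := by
  rw [X_apply, map_add, f.isIntertwining, X_apply]

lemma hom_Y (f : ρ.IntertwiningMap σ) (v : V) : f (Y ρ v) = Y σ (f v) := by
  rw [Y_apply, map_add, f.isIntertwining, Y_apply]

end ops

section repOf
variable {V : Type*} [AddCommGroup V] [Module K V]

lemma one_add_sq (x : Module.End K V) (hx : x * x = 0) : (1 + x) * (1 + x) = 1 := by
  ext v
  have h : x (x v) = 0 := by rw [← Module.End.mul_apply, hx]; rfl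
  simp only [Module.End.mul_apply, LinearMap.add_apply, Module.End.one_apply, map_add, h, add_zero]
  rw [add_assoc, add_self, add_zero]

/-- a homomorphism from `C2` given by an involution -/
def ofInv {M : Type*} [Monoid M] (s : M) (hs : s * s = 1) : C2 →* M where
  toFun a := if a = 1 then 1 else s
  map_one' := by simp
  map_mul' a b := by
    have key : ∀ a b : C2, (a = 1 ∧ b = 1 ∧ a * b = 1) ∨ (a = 1 ∧ b ≠ 1 ∧ a * b ≠ 1) ∨
        (a ≠ 1 ∧ b = 1 ∧ a * b ≠ 1) ∨ (a ≠ 1 ∧ b ≠ 1 ∧ a * b = 1) := by decide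
    rcases key a b with ⟨h1, h2, h3⟩ | ⟨h1, h2, h3⟩ | ⟨h1, h2, h3⟩ | ⟨h1, h2, h3⟩ <;>
      simp [h1, h2, h3, hs]

/-- the representation with `g₁ = 1 + x`, `g₂ = 1 + y` -/
def repOf (x y : Module.End K V) (hx : x * x = 0) (hy : y * y = 0) (hxy : x * y = y * x) :
    Representation K G V :=
  MonoidHom.noncommCoprod (ofInv (1 + x) (one_add_sq x hx)) (ofInv (1 + y) (one_add_sq y hy))
    (by
      intro a b
      have h : Commute (1 + x) (1 + y) := by
        have : Commute x y := hxy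
        exact ((Commute.one_left _).add_left ((Commute.one_right x).add_right this))
      simp only [ofInv, MonoidHom.coe_mk, OneHom.coe_mk]
      split_ifs
      · exact Commute.one_left _
      · exact Commute.one_left _
      · exact Commute.one_right _
      · exact h)

lemma repOf_X (x y : Module.End K V) (hx : x * x = 0) (hy : y * y = 0) (hxy : x * y = y * x) :
    X (repOf x y hx hy hxy) = x := by
  ext v
  have h1 : (Multiplicative.ofAdd (1 : ZMod 2)) ≠ 1 := by decide
  simp only [X_apply, repOf, g₁, MonoidHom.noncommCoprod_apply, ofInv, MonoidHom.coe_mk,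
    OneHom.coe_mk, if_neg h1, if_true, mul_one, LinearMap.add_apply, Module.End.one_apply]
  rw [add_comm v, add_assoc, add_self, add_zero]

lemma repOf_Y (x y : Module.End K V) (hx : x * x = 0) (hy : y * y = 0) (hxy : x * y = y * x) :
    Y (repOf x y hx hy hxy) = y := by
  ext v
  have h1 : (Multiplicative.ofAdd (1 : ZMod 2)) ≠ 1 := by decide
  simp only [Y_apply, repOf, g₂, MonoidHom.noncommCoprod_apply, ofInv, MonoidHom.coe_mk,
    OneHom.coe_mk, if_neg h1, if_true, one_mul, LinearMap.add_apply, Module.End.one_apply]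
  rw [add_comm v, add_assoc, add_self, add_zero]

end repOf

end Pool.Agent.Q109.Rat
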