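import Pool.Agent.Q109.Rat.Core

/-!
Tensor products with projectives, syzygies and Schanuel's lemma.
-/

open CategoryTheory CategoryTheory.MonoidalCategory CategoryTheory.Limits
open scoped TensorProduct

namespace Pool.Agent.Q109.Rat

open Representation

/-- the product representation is a biproduct -/
noncomputable def prodIso (A B : Rep.{0} K G) : Rep.of (A.ρ.prod B.ρ) ≅ A ⊞ B := by
  let b : BinaryBicone A B :=
    { pt := Rep.of (A.ρ.prod B.ρ)
      fst := Rep.ofHom (.fst K A.ρ B.ρ)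
      snd := Rep.ofHom (.snd K A.ρ B.ρ)
      inl := Rep.ofHom (.inl K A.ρ B.ρ)
      inr := Rep.ofHom (.inr K A.ρ B.ρ)
      inl_fst := by ext1; simp
      inl_snd := by ext1; simp
      inr_fst := by ext1; simp
      inr_snd := by ext1; simp }
  have h : b.IsBilimit := isBinaryBilimitOfTotal b (by ext1; simp [b, Rep.add_hom])
  exact biprod.uniqueUpToIso A B h

section tensor

/-- tensoring with a fixed module preserves projectives -/
lemma projective_tensor_left (T : Rep.{0} K G) {P : Rep.{0} K G} (hP : Projective P) :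
    Projective (T ⊗ P) := by
  have h : (ihom T).PreservesEpimorphisms := by
    refine ⟨fun {E F} f hf => ?_⟩
    rw [Rep.epi_iff_surjective] at hf ⊢
    intro (g : T.V →ₗ[K] F.V)
    obtain ⟨s, hs⟩ := Module.projective_lifting_property f.hom.toLinearMap g hf
    exact ⟨s, hs⟩
  exact (ihom.adjunction T).map_projective P hP

lemma projective_tensor_right (T : Rep.{0} K G) {P : Rep.{0} K G} (hP : Projective P) :
    Projective (P ⊗ T) :=
  Projective.of_iso (β_ T P) (projective_tensor_left T hP)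

lemma c_iso {A B : Rep.{0} K G} (e : A ≅ B) : c A.ρ = c B.ρ := c_equiv (Representation.equivOfIso e)

lemma c_tensor_projective (T : Rep.{0} K G) [FiniteDimensional K T.V] {P : Rep.{0} K G}
    [FiniteDimensional K P.V] (hP : Projective P) : c (P ⊗ T).ρ = 0 := by
  have : FiniteDimensional K (P ⊗ T).V := inferInstanceAs (FiniteDimensional K (P.V ⊗[K] T.V))
  exact c_projective (projective_tensor_right T hP)

/-- distributivity -/
noncomputable def prodTensorEquiv (A B T : Rep.{0} K G) :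
    ((A.ρ.prod B.ρ).tprod T.ρ).Equiv ((A.ρ.tprod T.ρ).prod (B.ρ.tprod T.ρ)) :=
  .mk (TensorProduct.prodLeft K K A.V B.V T.V) (fun g => by
    apply TensorProduct.ext'
    rintro ⟨a, b⟩ t
    rfl)

lemma c_prod_tensor (A B T : Rep.{0} K G) [FiniteDimensional K A.V] [FiniteDimensional K B.V]
    [FiniteDimensional K T.V] :
    c ((A.ρ.prod B.ρ).tprod T.ρ) = c (A ⊗ T).ρ + c (B ⊗ T).ρ := by
  rw [c_equiv (prodTensorEquiv A B T)]
  exact c_prod _ _

/-- tensoring an equivalence -/
noncomputable def tensorEquiv {V W U : Type} [AddCommGroup V] [Module K V] [AddCommGroup W]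
    [Module K W] [AddCommGroup U] [Module K U] {ρ : Representation K G V}
    {σ : Representation K G W} (e : ρ.Equiv σ) (τ : Representation K G U) :
    (ρ.tprod τ).Equiv (σ.tprod τ) :=
  .mk (TensorProduct.congr e.toLinearEquiv (LinearEquiv.refl K U)) (fun g => by
    apply TensorProduct.ext'
    intro a b
    have h : e (ρ g a) = σ g (e a) := IntertwiningMap.isIntertwining _ _ e.toIntertwiningMap g a
    change e (ρ g a) ⊗ₜ[K] τ g b = σ g (e a) ⊗ₜ[K] τ g b
    rw [h])

lemma c_stable {A B P Q T : Rep.{0} K G} [FiniteDimensional K A.V] [FiniteDimensional K B.V]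
    [FiniteDimensional K P.V] [FiniteDimensional K Q.V] [FiniteDimensional K T.V]
    (hP : Projective P) (hQ : Projective Q)
    (e : (A.ρ.prod P.ρ).Equiv (B.ρ.prod Q.ρ)) : c (A ⊗ T).ρ = c (B ⊗ T).ρ := by
  have h := c_equiv (tensorEquiv e T.ρ)
  rw [c_prod_tensor, c_prod_tensor, c_tensor_projective T hP, c_tensor_projective T hQ] at h
  simpa using h

end tensor

section syz

/-- `A` is a syzygy of `X` -/
def Syz (A X : Rep.{0} K G) : Prop :=
  ∃ (P : Rep.{0} K G) (i : A ⟶ P) (p : P ⟶ X), Projective P ∧ FiniteDimensional K P.V ∧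
    Function.Injective i.hom ∧ Function.Surjective p.hom ∧ ∀ y, p.hom y = 0 ↔ ∃ x, i.hom x = y

lemma Syz.tensor {A X : Rep.{0} K G} (h : Syz A X) (Y : Rep.{0} K G) [FiniteDimensional K Y.V] :
    Syz (Y ⊗ A) (Y ⊗ X) := by
  obtain ⟨P, i, p, hP, hfd, hi, hp, hex⟩ := h
  refine ⟨Y ⊗ P, Y ◁ i, Y ◁ p, projective_tensor_left Y hP, ?_, ?_, ?_, ?_⟩
  · exact inferInstanceAs (FiniteDimensional K (Y.V ⊗[K] P.V))
  · exact Module.Flat.lTensor_preserves_injective_linearMap (M := Y.V) i.hom.toLinearMap hi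
  · exact LinearMap.lTensor_surjective Y.V (g := p.hom.toLinearMap) hp
  · have : Function.Exact i.hom.toLinearMap p.hom.toLinearMap := fun y => hex y
    exact lTensor_exact Y.V this hp

lemma Syz.congr {A X X' : Rep.{0} K G} (h : Syz A X) (e : X ≅ X') : Syz A X' := by
  obtain ⟨P, i, p, hP, hfd, hi, hp, hex⟩ := h
  refine ⟨P, i, p ≫ e.hom, hP, hfd, hi, ?_, ?_⟩
  · intro x
    obtain ⟨y, hy⟩ := hp (e.inv.hom x)
    refine ⟨y, ?_⟩
    rw [Rep.hom_comp]
    change e.hom.hom (p.hom y) = x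
    rw [hy]; simp
  · intro y
    rw [← hex, Rep.hom_comp]
    change e.hom.hom (p.hom y) = 0 ↔ _
    constructor
    · intro h0
      have : e.inv.hom (e.hom.hom (p.hom y)) = 0 := by rw [h0, map_zero]
      simpa using this
    · intro h0
      rw [h0, map_zero]

theorem schanuel {A B Z : Rep.{0} K G} (hA : Syz A Z) (hB : Syz B Z) :
    ∃ P Q : Rep.{0} K G, Projective P ∧ Projective Q ∧ FiniteDimensional K P.V ∧
      FiniteDimensional K Q.V ∧ Nonempty ((A.ρ.prod P.ρ).Equiv (B.ρ.prod Q.ρ)) := by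
  obtain ⟨P, i, p, hP, hPfd, hi, hp, hex⟩ := hA
  obtain ⟨Q, j, q, hQ, hQfd, hj, hq, hexq⟩ := hB
  have hpe : Epi p := (Rep.epi_iff_surjective p).2 hp
  obtain ⟨t, ht⟩ := hQ.factors q p
  have ht' : ∀ x, p.hom (t.hom x) = q.hom x := fun x => by
    have := congrArg (fun f : Q ⟶ Z => f.hom x) ht
    simpa using this
  -- the map `A × Q → P`
  let φ : Rep.of (A.ρ.prod Q.ρ) ⟶ P :=
    Rep.ofHom (.fst K A.ρ Q.ρ) ≫ i + Rep.ofHom (.snd K A.ρ Q.ρ) ≫ t
  have hφ : ∀ z : A.V × Q.V, φ.hom z = i.hom z.1 + t.hom z.2 := fun z => rfl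
  have hφs : Epi φ := by
    rw [Rep.epi_iff_surjective]
    intro y
    obtain ⟨x, hx⟩ := hq (p.hom y)
    have h0 : p.hom (y - t.hom x) = 0 := by rw [map_sub, ht', hx, sub_self]
    obtain ⟨a, ha⟩ := (hex _).1 h0
    refine ⟨(a, x), ?_⟩
    rw [hφ, ha]
    simp
  obtain ⟨s, hs⟩ := hP.factors (𝟙 P) φ
  have hs' : ∀ y, φ.hom (s.hom y) = y := fun y => by
    have := congrArg (fun f : P ⟶ P => f.hom y) hs
    simpa using this
  -- the map `B → A`
  have hα : ∀ b : B.V, ∃ a : A.V, i.hom a = t.hom (j.hom b) := fun b => by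
    rw [← hex, ht', hexq]
    exact ⟨b, rfl⟩
  choose α hα using hα
  let αl : B.V →ₗ[K] A.V :=
    { toFun := α
      map_add' := fun a b => hi (by rw [hα, map_add, map_add, map_add, hα, hα])
      map_smul' := fun r b => hi (by
        rw [hα, map_smul, map_smul, RingHom.id_apply, map_smul, hα]) }
  let ψ : (B.ρ.prod P.ρ).IntertwiningMap (A.ρ.prod Q.ρ) := mkHom
    { toFun := fun z => (αl z.1, j.hom z.1) + s.hom z.2
      map_add' := fun a b => by
        simp only [Prod.fst_add, Prod.snd_add, map_add]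
        rw [← Prod.mk_add_mk]; abel
      map_smul' := fun r a => by
        simp only [Prod.smul_fst, Prod.smul_snd, map_smul, RingHom.id_apply, smul_add,
          Prod.smul_mk] }
    (fun z => by
      have h1 : αl (X B.ρ z.1) = X A.ρ (αl z.1) := hi (by
        rw [hom_X]
        change i.hom (α _) = X P.ρ (i.hom (α _))
        rw [hα, hα, hom_X, hom_X])
      change (αl (X B.ρ z.1), j.hom (X B.ρ z.1)) + s.hom (X P.ρ z.2) =
        X (A.ρ.prod Q.ρ) ((αl z.1, j.hom z.1) + s.hom z.2)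
      rw [map_add, h1, hom_X, hom_X]
      rfl)
    (fun z => by
      have h1 : αl (Y B.ρ z.1) = Y A.ρ (αl z.1) := hi (by
        rw [hom_Y]
        change i.hom (α _) = Y P.ρ (i.hom (α _))
        rw [hα, hα, hom_Y, hom_Y])
      change (αl (Y B.ρ z.1), j.hom (Y B.ρ z.1)) + s.hom (Y P.ρ z.2) =
        Y (A.ρ.prod Q.ρ) ((αl z.1, j.hom z.1) + s.hom z.2)
      rw [map_add, h1, hom_Y, hom_Y]
      rfl)
  have hψ : ∀ z : B.V × P.V, ψ z = (α z.1, j.hom z.1) + s.hom z.2 := fun _ => rfl
  have hφψ : ∀ z : B.V × P.V, φ.hom (ψ z) = z.2 := fun z => by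
    rw [hψ, map_add, hs', hφ]
    change i.hom (α z.1) + t.hom (j.hom z.1) + z.2 = z.2
    rw [hα, add_self, zero_add]
  have hbij : Function.Bijective ψ := by
    constructor
    · rw [injective_iff_map_eq_zero]
      intro z hz
      have h2 : z.2 = 0 := by rw [← hφψ z, hz, map_zero]
      have h3 : (α z.1, j.hom z.1) = (0 : A.V × Q.V) := by
        have := hψ z
        rw [hz, h2, map_zero, add_zero] at this
        exact this.symm
      have h4 : j.hom z.1 = 0 := congrArg Prod.snd h3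
      have h5 : z.1 = 0 := hj (by rw [h4, map_zero])
      exact Prod.ext h5 h2
    · intro z
      have h0 : φ.hom (z - s.hom (φ.hom z)) = 0 := by
        rw [map_sub, hs', sub_self]
      set w : A.V × Q.V := z - s.hom (φ.hom z) with hw
      have h1 : i.hom w.1 = t.hom w.2 := by
        rw [hφ] at h0
        rw [add_eq_zero_iff_eq_neg, neg_self] at h0
        exact h0
      obtain ⟨b, hb⟩ := (hexq w.2).1 (by
        rw [← ht', ← h1]
        exact (hex _).2 ⟨_, rfl⟩)
      refine ⟨(b, φ.hom z), ?_⟩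
      rw [hψ]
      have h2 : α b = w.1 := hi (by rw [hα, hb, h1])
      change (α b, j.hom b) + s.hom (φ.hom z) = z
      rw [h2, hb]
      change w + s.hom (φ.hom z) = z
      rw [hw]
      simp
  exact ⟨Q, P, hQ, hP, hQfd, hPfd, ⟨(IntertwiningMap.ofBijective ψ hbij).symm⟩⟩

lemma c_syz {A B X T : Rep.{0} K G} [FiniteDimensional K A.V] [FiniteDimensional K B.V]
    [FiniteDimensional K T.V] (hA : Syz A X) (hB : Syz B X) : c (A ⊗ T).ρ = c (B ⊗ T).ρ := by
  obtain ⟨P, Q, hP, hQ, hPfd, hQfd, ⟨e⟩⟩ := schanuel hA hB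
  exact c_stable hP hQ e

end syz

end Pool.Agent.Q109.Rat
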